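import Mathlib
import Pool.Agent.K4H21.TF.Defs3
import Pool.Agent.W495.FM.HomDefs

/-!
# Schemes over finite fields generated by the abelian varieties reached by the theorems of Tate and
Markman
-/

set_option autoImplicit false

namespace Pool.Agent.K4H21.TP

open Pool.Agent.H204R3.CM Pool.Agent.W547.KB Pool.Agent.W495.TA Pool.Agent.W495.FM
  Pool.Agent.TH117.BL Pool.Agent.K4H21.TF

variable {p : ℕ} [Fact p.Prime] {ν : PadicAlgCl p ≃+* ℂ}

/-- The abelian variety `Z` is reached: all multiplicative relations between its Frobenius eigenvalues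
are in the group which is generated by the trivial relations and by the sums which belong to the
imaginary quadratic fields with multiplicities at most three on CM types. -/
def Reached (Z : RedAV p ν) : Prop := ∀ e, IsRelation Z e → e ∈ Gen Z

/-- The number of the elements of the CM type which map the element `δ` of the field to `u`: the
multiplicity of `u` on the tangent space. -/
noncomputable def mult (A : CMPair) (δ : A.E) (u : ℂ) : ℕ∞ := {φ ∈ A.Φ | φ δ = u}.encard

/-- The prime number `p` splits in the field, and the two multiplicities are different. -/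
def Unbalanced {Z : RedAV p ν} (W : QuadDatum Z) : Prop :=
  IsSquare (-((W.d : ℚ) : ℚ_[p])) ∧ ∃ u : ℂ, mult W.A W.δ u ≠ mult W.A W.δ (-u)

/-- The group which is generated by the numbers `α ^ 2 / q`, for all Frobenius eigenvalues `α`. -/
def angles (Z : RedAV p ν) : Subgroup ℂˣ :=
  Subgroup.closure {u : ℂˣ | ∃ w, (u : ℂ) * (p : ℂ) ^ Z.a = eig Z w ^ 2}

/-- The angle rank of `Z`. -/
noncomputable def rank (Z : RedAV p ν) : ℕ := Module.finrank ℤ (Additive (angles Z))

/-- The factor of `Z` with index `i₀` is ordinary and (over an algebraic closure) simple: its Frobenius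
eigenvalues are `p`-adic units or `q` times units, and they are different up to roots of unity. -/
def OrdinarySimple (Z : RedAV p ν) (i₀ : Z.X.I) : Prop :=
  ∀ w : Emb Z, w.1 = i₀ →
    (‖ν.symm (eig Z w)‖ = 1 ∨ ‖ν.symm (eig Z w)‖ = ‖(p : PadicAlgCl p) ^ Z.a‖) ∧
      ∀ w' : Emb Z, w'.1 = i₀ → SameEig Z w w' → w = w'

/-- The groups of motivic and of `ℓ`-adic homology of `X` are those of a product of powers of factors
of an abelian variety which is reached. -/
def IsReachedAbelian {Ω V : Type} [Field Ω] [CharZero Ω] (p : ℕ) [Fact p.Prime]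
    (ν : PadicAlgCl p ≃+* ℂ) (T : Homology Ω V) (X : V) : Prop :=
  ∃ (Z Y : RedAV p ν) (C : Cycles Ω Y) (D : Motivic C) (g : ℕ), Reached Z ∧ IsPowersOf Z Y ∧
    IsChow C ∧ IsMotivic D ∧ IsAbelian T X D g

end Pool.Agent.K4H21.TP
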