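import Mathlib
import Pool.Agent.K4H21.TP.Defs
import Pool.Agent.K4H21.TF.MainI
import Pool.Agent.K4H21.TF.QuadI
import Pool.Agent.K4H21.TF.OneJ
import Pool.Agent.TH170.GS.TB
import Pool.Agent.X303.KThms

/-!
# The conjectures of Tate, Beilinson and Parshin for the generated schemes
-/

set_option autoImplicit false

namespace Pool.Agent.K4H21.TP

open Pool.Agent.W495.TA Pool.Agent.W495.FM Pool.Agent.TH117.BL Pool.Agent.K4H21.TF
  Pool.Agent.X303.TBDual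

variable {p : ℕ} [Fact p.Prime] {ν : PadicAlgCl p ≃+* ℂ}

section

variable {Ω : Type} [Field Ω] [IsAlgClosed Ω] [CharZero Ω]

theorem tateHolds_reached {Z Y : RedAV p ν} {C : Cycles Ω Y} (h1 : Reached Z)
    (h2 : IsPowersOf Z Y) (hC : IsChow C) : TateHolds C :=
  fun j f hf => hC.algebraic j f (pos_dir Z h1 Ω Y h2 1 j one_pos f hf) hf

theorem tb_reached {V : Type} {T : Homology Ω V} (hT : IsHomology T) {X : V}
    (hX : Generated T (IsReachedAbelian p ν T) X) : TB T X := by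
  refine tb_generated hT (fun X hX => ?_) hX
  obtain ⟨Z, Y, C, D, g, hZ, hY, hC, hD, hX⟩ := hX
  exact tb_abelian hT hC (tateHolds_reached hZ hY hC) hD hX

end

theorem reached_num (Z : RedAV p ν) (r : ℕ) (W : Fin r → QuadDatum Z)
    (h1 : ∀ i k, i ≠ k → ∀ w ∈ Set.range (W i).θ, ∀ w' ∈ Set.range (W k).θ, ¬ SameEig Z w w')
    (h2 : numEig Z / 2 + ((fun i => (W i).d) '' {i | Unbalanced (W i)}).ncard ≤ rank Z + r) :
    Reached Z :=
  num_main p ν Z r W (fun i k h φ ψ => h1 i k h _ ⟨φ, rfl⟩ _ ⟨ψ, rfl⟩) h2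

theorem reached_iff (Z : RedAV p ν) (i₀ : Z.X.I) (H : IsotypicTimesSuper Z i₀) :
    Reached Z ↔ 2 * rank Z = numEig Z ∨
      (2 * (rank Z + 1) = numEig Z ∧ ∃ W : QuadDatum Z, ¬ Unbalanced W) :=
  (crit ℂ Z).symm.trans (iso_crit (one_mainJ rk_main) quadI ℂ Z i₀ H)

theorem reached_ord (Z : RedAV p ν) (i₀ : Z.X.I) (H : IsotypicTimesSuper Z i₀)
    (hord : OrdinarySimple Z i₀) :
    Reached Z ↔ 2 * rank Z = numEig Z ∨
      (2 * (rank Z + 1) = numEig Z ∧ numEig Z ≤ 12) :=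
  (crit ℂ Z).symm.trans (ord_crit (one_mainJ rk_main) quadI ℂ Z i₀ H
    (fun φ φ' hne h => hne (eq_of_heq (Sigma.mk.inj_iff.1
      ((hord ⟨i₀, φ⟩ rfl).2 ⟨i₀, φ'⟩ rfl h)).2))
    (fun φ => (hord ⟨i₀, φ⟩ rfl).1))

theorem main (ν : PadicAlgCl p ≃+* ℂ) :
    (∀ (Ω : Type) [Field Ω] [IsAlgClosed Ω] [CharZero Ω] (V : Type) (T : Homology Ω V),
      IsHomology T → ∀ X : V, Generated T (IsReachedAbelian p ν T) X → IsPure T X →
      ∀ (G : ℤ → Type) [∀ m, AddCommGroup (G m)], IsKTheory T X G →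
      ∀ m : ℤ, 1 ≤ m → ∀ x : G m, IsOfFinAddOrder x) ∧
    (∀ (Z : RedAV p ν) (r : ℕ) (W : Fin r → QuadDatum Z),
      (∀ i k, i ≠ k → ∀ w ∈ Set.range (W i).θ, ∀ w' ∈ Set.range (W k).θ, ¬ SameEig Z w w') →
      numEig Z / 2 + ((fun i => (W i).d) '' {i | Unbalanced (W i)}).ncard ≤ rank Z + r →
      Reached Z) ∧
    (∀ (Z : RedAV p ν) (i₀ : Z.X.I), IsotypicTimesSuper Z i₀ →
      (Reached Z ↔ 2 * rank Z = numEig Z ∨
        (2 * (rank Z + 1) = numEig Z ∧ ∃ W : QuadDatum Z, ¬ Unbalanced W)) ∧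
      (OrdinarySimple Z i₀ → (Reached Z ↔ 2 * rank Z = numEig Z ∨
        (2 * (rank Z + 1) = numEig Z ∧ numEig Z ≤ 12)))) :=
  ⟨fun _ _ _ _ _ _ hT _ hX hpure _ _ hG _ _ x => parshin_K hT (tb_reached hT hX) hpure hG
      (by omega) x,
    reached_num, fun Z i₀ H => ⟨reached_iff Z i₀ H, reached_ord Z i₀ H⟩⟩

end Pool.Agent.K4H21.TP
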